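import Pool.Agent.H63.SEP.Stmts

/-!
Module CCS: the posets are ccc.
-/

set_option linter.unusedVariables false
set_option synthInstance.maxSize 100000

namespace SW.SEP

open SW

namespace CCS

section
variable {M : Type} [SetStr M] [ZF M]

theorem fnt_sing (a : M) : Fnt (sing a) :=
  finF.sub (finF.ins (a := a) finF.emp) fun z hz => mem_ins.2 (Or.inr (mem_sing.1 hz))

theorem fnt_two : Fnt (two : M) :=
  finF.sub (finF.ins (a := emp) (finF.ins (a := sing emp) finF.emp)) fun z hz => by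
    unfold two at hz
    rw [mem_upair] at hz
    rw [mem_ins, mem_ins]
    rcases hz with h | h
    · exact Or.inr h
    · exact Or.inl (Or.inr h)

/-- the first components of the atoms of `p` -/
noncomputable def ixs (p : M) : M := img p (fun a => p1 a)

theorem ixs_df : Fn1 (fun p : M => ixs p) := by unfold ixs; infer_instance

theorem mem_ixs {p e x : M} (h : E (opair e x) p) : E e (ixs p) := by
  unfold ixs
  rw [mem_img]
  exact ⟨_, h, (p1_opair e x).symm⟩

/-- the part of `p` which consists of atoms of the generic relation and of nodes at members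
of `r` -/
noncomputable def ty (r p : M) : M := sep p (fun a => (∃ s τ b, a = gR s τ b) ∨
  ∃ e v, E e r ∧ a = lV e v)

theorem ty_df (r : M) : Fn1 (fun p : M => ty r p) := by unfold ty; infer_instance

theorem mem_ty {r p a : M} : E a (ty r p) ↔ E a p ∧ ((∃ s τ b, a = gR s τ b) ∨
    ∃ e v, E e r ∧ a = lV e v) := by
  unfold ty
  rw [mem_sep]

/-- a countable set which contains these atoms -/
noncomputable def ZZr (r : M) : M :=
  bun (prod (sing emp) (prod (sing two) (prod NDS (prod (SQ om) two))))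
    (prod r (prod (sing emp) NDS))

theorem ty_sub (hat : AtFacts M) {I r p : M} (hp : Shp I p) : Sub (ty r p) (ZZr r) := by
  intro a ha
  rw [mem_ty] at ha
  obtain ⟨hap, ha⟩ := ha
  rcases hp.2 a hap with ⟨s, τ, b, hs, hτ, hb, rfl⟩ | ⟨e, v, he, hv, rfl⟩ | ⟨e, z, j, he, hz, hj, rfl⟩
  · unfold ZZr gR
    rw [mem_bun]
    left
    simp only [mem_prod, mem_sing, true_and]
    exact ⟨hs, hτ, hb⟩
  · rcases ha with ⟨s, τ, b, h⟩ | ⟨e', v', he', h⟩
    · exact absurd h.symm hat.RV
    · rw [hat.VV] at h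
      obtain ⟨rfl, rfl⟩ := h
      unfold ZZr lV
      rw [mem_bun]
      right
      simp only [mem_prod, mem_sing, true_and]
      exact ⟨he', hv⟩
  · rcases ha with ⟨s, τ, b, h⟩ | ⟨e', v', he', h⟩
    · exact absurd h.symm hat.RF
    · exact absurd h.symm hat.VF

/-- amalgamation of two conditions of the same type -/
theorem amalg {I r p p' : M} (hp : Cond I p) (hp' : Cond I p')
    (hr : ∀ e, E e (ixs p) → E e (ixs p') → E e r) (hty : ty r p = ty r p') :
    Cond I (bun p p') := by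
  obtain ⟨hS, hR, hV, hP, hN, hC⟩ := hp
  obtain ⟨hS', hR', hV', hP', hN', hC'⟩ := hp'
  have hg : ∀ s τ b, E (gR s τ b) p ↔ E (gR s τ b) p' := by
    intro s τ b
    have h : E (gR s τ b) (ty r p) ↔ E (gR s τ b) (ty r p') := by rw [hty]
    rw [mem_ty, mem_ty] at h
    constructor
    · intro hp
      exact (h.1 ⟨hp, Or.inl ⟨s, τ, b, rfl⟩⟩).1
    · intro hp
      exact (h.2 ⟨hp, Or.inl ⟨s, τ, b, rfl⟩⟩).1
  have hl : ∀ e v, E e r → (E (lV e v) p ↔ E (lV e v) p') := by
    intro e v he
    have h : E (lV e v) (ty r p) ↔ E (lV e v) (ty r p') := by rw [hty]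
    rw [mem_ty, mem_ty] at h
    constructor
    · intro hp
      exact (h.1 ⟨hp, Or.inr ⟨e, v, he, rfl⟩⟩).1
    · intro hp
      exact (h.2 ⟨hp, Or.inr ⟨e, v, he, rfl⟩⟩).1
  have hrr : ∀ e x y, E (opair e x) p → E (opair e y) p' → E e r := fun e x y h h' =>
    hr e (mem_ixs h) (mem_ixs h')
  refine ⟨⟨finF.bun hS.1 hS'.1, ?_⟩, ?_, ?_, ?_, ?_, ?_⟩
  · intro a ha
    rw [mem_bun] at ha
    rcases ha with ha | ha
    · exact hS.2 a ha
    · exact hS'.2 a ha
  · intro s τ b b' h h'
    rw [mem_bun] at h h'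
    have h1 : E (gR s τ b) p := h.elim id fun h => (hg _ _ _).2 h
    have h2 : E (gR s τ b') p := h'.elim id fun h => (hg _ _ _).2 h
    exact hR s τ b b' h1 h2
  · intro e v v' h h'
    rw [mem_bun] at h h'
    rcases h with h | h
    · rcases h' with h' | h'
      · exact hV e v v' h h'
      · exact hV e v v' h ((hl e v' (hrr e _ _ h h')).2 h')
    · rcases h' with h' | h'
      · exact hV e v v' ((hl e v (hrr e _ _ h' h)).2 h) h'
      · exact hV' e v v' h h'
  · intro e z j v s h h' hs hsv hj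
    rw [mem_bun] at h h' ⊢
    rcases h with h | h
    · have h1 : E (lV e v) p := by
        rcases h' with h' | h'
        · exact h'
        · exact (hl e v (hrr e _ _ h h')).2 h'
      exact Or.inl (hP e z j v s h h1 hs hsv hj)
    · have h1 : E (lV e v) p' := by
        rcases h' with h' | h'
        · exact (hl e v (hrr e _ _ h' h)).1 h'
        · exact h'
      exact Or.inr (hP' e z j v s h h1 hs hsv hj)
  · intro e v h he n a hna
    rw [mem_bun] at h
    rcases h with h | h
    · exact hN e v h he n a hna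
    · exact hN' e v h he n a hna
  · intro B r0 q x i t v h
    rw [mem_bun] at h
    rcases h with h | h
    · obtain ⟨h1, h2⟩ := hC B r0 q x i t v h
      refine ⟨fun z hz => mem_bun.2 (Or.inl (h1 z hz)), fun n a hna => ?_⟩
      obtain ⟨a0, c', c, h3, h4, h5, h6, ⟨q', h7, h8⟩, v', h9, h10⟩ := h2 n a hna
      exact ⟨a0, c', c, h3, h4, h5, h6, ⟨q', fun z hz => mem_bun.2 (Or.inl (h7 z hz)), h8⟩, v',
        mem_bun.2 (Or.inl h9), h10⟩
    · obtain ⟨h1, h2⟩ := hC' B r0 q x i t v h
      refine ⟨fun z hz => mem_bun.2 (Or.inr (h1 z hz)), fun n a hna => ?_⟩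
      obtain ⟨a0, c', c, h3, h4, h5, h6, ⟨q', h7, h8⟩, v', h9, h10⟩ := h2 n a hna
      exact ⟨a0, c', c, h3, h4, h5, h6, ⟨q', fun z hz => mem_bun.2 (Or.inr (h7 z hz)), h8⟩, v',
        mem_bun.2 (Or.inr h9), h10⟩

end

end CCS

open CCS in
theorem sep_ccs (hatm : ATMStmt) (hcts : CTSStmt) (hcbt : CBTStmt) (hdel : DELStmt) :
    CCSStmt := by
  intro M _ _ I hI A hA
  by_contra hAc
  have hc : CbFacts M := hcbt M
  obtain ⟨-, -, hnds, hsq, -, -⟩ := hcts M
  have hco : ∀ p, E p A → Cond I p := fun p hp => mem_PS.1 (hA.1 p hp)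
  obtain ⟨A', r, hA', hAc', hr, hrs, hrr⟩ := hdel M A (fun p => ixs p) ixs_df hAc (fun p hp => by
    unfold ixs
    exact finF.img _ inferInstance (hco p hp).1.1)
  have hZ : Cb (ZZr r) := hc.bun (hc.prod (hc.fin (fnt_sing emp)) (hc.prod (hc.fin (fnt_sing two))
      (hc.prod hnds (hc.prod hsq (hc.fin fnt_two)))))
    (hc.prod (hc.fin hr) (hc.prod (hc.fin (fnt_sing emp)) hnds))
  apply hAc'
  have hcof : ∀ p, E p A' → Cond I p := fun p hp => hco p (hA' p hp)
  refine hc.inj (y := sep (pow (ZZr r)) (fun y => Fnt y)) (fun p => ty r p) (ty_df r)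
    (hc.fsub hZ) ?_ ?_
  · intro p hp
    rw [mem_sep, mem_pow]
    refine ⟨ty_sub (hatm M) (hcof p hp).1, finF.sub (hcof p hp).1.1 fun z hz => (mem_ty.1 hz).1⟩
  · intro p p' hp hp' hty
    by_contra hne
    refine hA.2 p p' (hA' p hp) (hA' p' hp') hne ⟨bun p p', mem_PS.2 (amalg (hcof p hp)
      (hcof p' hp') (fun e he he' => hrr p p' hp hp' hne e he he') hty), ?_, ?_⟩
    · exact fun z hz => mem_bun.2 (Or.inl hz)
    · exact fun z hz => mem_bun.2 (Or.inr hz)

end SW.SEP
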