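import Pool.Agent.H63.SEP.Stmts2
import Pool.Agent.H14.FRU.Stmts

/-!
Module CVX: countable sets of the extension are covered by countable sets of the model.
-/

set_option linter.unusedVariables false
set_option synthInstance.maxSize 100000

namespace SW.SEP

open SW

theorem sep_cvx (hccs : CCSStmt) (hcvg : FU.CVGStmt) : CVXStmt := by
  intro M _ _ _ I G hI hG _ X a ha hs
  have h1 : ∀ a, FU.AnF (PF I) a → Cb a := by
    intro a ha
    refine hccs M I hI a ⟨ha.1, fun p q hp hq hne => ?_⟩
    rintro ⟨r, hr, h1, h2⟩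
    exact ha.2 p q hp hq hne ⟨r, hr, h1, h2⟩
  exact hcvg M (PF I) G h1 hG X a ha hs

end SW.SEP
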