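import Pool.Agent.H63.SEP.Stmts2

/-!
Module SBX: the extension by a subsystem is a submodel of the extension.
-/

set_option linter.unusedVariables false
set_option synthInstance.maxSize 100000

namespace SW.SEP

open SW

theorem sep_sbx (htef : TEFStmt) (hemx : EMXStmt) (horx : ORXStmt) (hvlx : VLXStmt)
    (hcej : CEJStmt) : SBXStmt := by
  intro M _ _ J K G hJ hK hJK hG
  have h := hemx M (PF J) (PF K) (fun p => p) (fun p => rJ J p) (hcej M J K hJ hK hJK) G hG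
  change Gen (PF J) (Gr J G) ∧ ∃ j : Ext (PF J) (Gr J G) → Ext (PF K) G, TEmb j ∧
    ∀ x, j (emb (PF J) (Gr J G) x) = emb (PF K) G x at h
  obtain ⟨hG', j, hj, hje⟩ := h
  refine ⟨hG', ?_⟩
  intro _ _
  refine ⟨j, hj, hje, ?_, ?_⟩
  · intro b hb
    obtain ⟨c, hc, rfl⟩ := horx M (PF K) G hG b hb
    refine ⟨emb (PF J) (Gr J G) c, ?_, (hje c).symm⟩
    rw [← (htef _ _ j hj).ord, hje]
    exact hb
  · intro X τ hτ
    refine ext fun z => ?_
    rw [hvlx M J X τ G hτ K hG]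
    constructor
    · intro hz
      obtain ⟨y, rfl⟩ := hj.tr _ _ hz
      rw [hj.mem, hvlx M J X τ (Gr J G) hτ J hG'] at hz
      obtain ⟨q, a, h1, h2, rfl⟩ := hz
      exact ⟨q, a, h1, h2.2, hje a⟩
    · rintro ⟨q, a, h1, h2, rfl⟩
      rw [← hje, hj.mem, hvlx M J X τ (Gr J G) hτ J hG']
      obtain ⟨q', a', h3, h4, h5⟩ := hτ.2 _ h1
      rw [opair_inj] at h5
      obtain ⟨rfl, rfl⟩ := h5
      exact ⟨q, a, h1, ⟨h3, h2⟩, rfl⟩

end SW.SEP
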